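import Pool.Agent.V11105.GoldenFour

/-!
Negative answer to Q1 of MP_287b0d_an: the weighted fractional parts of the spectrum of the golden
mean do not equidistribute.
-/

open Filter Topology MeasureTheory Pool.Agent.V11105.Golden

theorem Pool.Agent.Results.MP_287b0d_an.GoldenNotEquidistributed.result :
    (∃ l μ, IsWeight l μ) ∧ ∀ l μ, IsWeight l μ →
      ∃ f : C(ℝ, ℝ), ∃ ε : ℝ, 0 < ε ∧
        ∀ᶠ n : ℕ in atTop, ε ≤ |∫ t, f t ∂(nu μ n) - ∫ t in (0 : ℝ)..1, f t| :=
  not_equidistributed
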